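import Mathlib
import Pool.Agent.Lib.MP_bca609_ag.Global1
import Pool.Agent.Lib.MP_bca609_ag.Step

/-!
The transcendence degree argument over an arbitrary subfield, and spans of local rings over
subfields.
-/

namespace Pool.Agent.Lib.MPbca609.H23

open MvPolynomial

open scoped IntermediateField.algebraAdjoinAdjoin in
theorem trdeg_le_one {F Ω : Type} [Field F] [Field Ω] [Algebra F Ω] (x : Ω)
    (h : Algebra.IsAlgebraic (IntermediateField.adjoin F {x}) Ω) : Algebra.trdeg F Ω ≤ 1 := by
  have hsalg : Algebra.IsAlgebraic (Algebra.adjoin F {x}) Ω :=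
    (IsFractionRing.comap_isAlgebraic_iff (A := Algebra.adjoin F {x})
      (K := IntermediateField.adjoin F {x}) (C := Ω)).2 h
  have h1 : Algebra.trdeg F Ω ≤ Cardinal.mk ({x} : Set Ω) :=
    Algebra.IsAlgebraic.trdeg_le_cardinalMk F {x}
  rwa [Cardinal.mk_singleton] at h1

/-- If `x_j W` is algebraic over `L` for all variables `x_j`, and `W ≠ 0`, then there are at most
`trdeg L + 1` variables. -/
theorem card_le_of_trdeg {σ k Ω : Type} [Finite σ] [Nonempty σ] [Field k] [Field Ω]
    [Algebra (MvPolynomial σ k) Ω] [IsFractionRing (MvPolynomial σ k) Ω] [Algebra k Ω]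
    [IsScalarTower k (MvPolynomial σ k) Ω] (L : IntermediateField k Ω) (m : ℕ)
    (hL : Algebra.trdeg k L ≤ m) (W : Ω) (hW : W ≠ 0)
    (hint : ∀ j : σ, IsIntegral L (algebraMap (MvPolynomial σ k) Ω (X j) * W)) :
    Nat.card σ ≤ m + 1 := by
  classical
  obtain ⟨j0⟩ : Nonempty σ := inferInstance
  let ι := algebraMap (MvPolynomial σ k) Ω
  have hinj : Function.Injective ι := IsFractionRing.injective _ _
  let s : Set Ω := {ι (X j0)}
  let F : IntermediateField L Ω := IntermediateField.adjoin L s
  have hz : ∀ j : σ, IsIntegral F (ι (X j) * W) := fun j => (hint j).tower_top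
  have hE : ∀ x : Ω, x ∈ algebraicClosure F Ω := by
    have hzE : ∀ j, ι (X j) * W ∈ algebraicClosure F Ω := fun j =>
      mem_algebraicClosure_iff'.2 (hz j)
    have hxF : ι (X j0) ∈ F := IntermediateField.subset_adjoin L s (by simp [s])
    have hx0E : ι (X j0) ∈ algebraicClosure F Ω := by
      have := (algebraicClosure F Ω).algebraMap_mem (⟨_, hxF⟩ : F)
      exact this
    have hx0ne : ι (X j0) ≠ 0 := fun h0 => X_ne_zero j0 (hinj (by rw [h0, map_zero]))
    have hWE : W ∈ algebraicClosure F Ω := by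
      have : W = (ι (X j0) * W) / ι (X j0) := by field_simp
      rw [this]
      exact (algebraicClosure F Ω).div_mem (hzE j0) hx0E
    have hxE : ∀ j, ι (X j) ∈ algebraicClosure F Ω := by
      intro j
      have : ι (X j) = (ι (X j) * W) / W := by field_simp
      rw [this]
      exact (algebraicClosure F Ω).div_mem (hzE j) hWE
    have hpE : ∀ p : MvPolynomial σ k, ι p ∈ algebraicClosure F Ω := by
      intro p
      induction p using MvPolynomial.induction_on with
      | C a =>
        have h1 : ι (C a) = algebraMap k Ω a := by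
          rw [IsScalarTower.algebraMap_apply k (MvPolynomial σ k) Ω]; rfl
        rw [h1]
        have h2 : algebraMap k Ω a ∈ L := L.algebraMap_mem a
        have h3 : algebraMap k Ω a ∈ F := F.algebraMap_mem (⟨_, h2⟩ : L)
        exact (algebraicClosure F Ω).algebraMap_mem (⟨_, h3⟩ : F)
      | add p q hp hq => rw [map_add]; exact (algebraicClosure F Ω).add_mem hp hq
      | mul_X p i hp => rw [map_mul]; exact (algebraicClosure F Ω).mul_mem hp (hxE i)
    intro x
    obtain ⟨p, q, _, rfl⟩ := IsFractionRing.div_surjective (A := MvPolynomial σ k) x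
    exact (algebraicClosure F Ω).div_mem (hpE p) (hpE q)
  have hFalg : Algebra.IsAlgebraic F Ω := ⟨fun x => mem_algebraicClosure_iff.1 (hE x)⟩
  have h1 : Algebra.trdeg L Ω ≤ 1 := trdeg_le_one (ι (X j0)) hFalg
  have h3 : Algebra.trdeg k Ω ≤ m + 1 := by
    rw [← trdeg_add_eq (R := k) (S := L) (A := Ω)]
    exact add_le_add hL h1
  have h5 : AlgebraicIndependent k (fun j : σ => ι (X j)) := by
    have h6 : AlgebraicIndependent k (X : σ → MvPolynomial σ k) := algebraicIndependent_X σ k
    let f : MvPolynomial σ k →ₐ[k] Ω := IsScalarTower.toAlgHom k (MvPolynomial σ k) Ω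
    exact h6.map' (f := f) hinj
  have h7 : Cardinal.mk σ ≤ Algebra.trdeg k Ω := h5.cardinalMk_le_trdeg
  have h8 : Cardinal.mk σ ≤ m + 1 := h7.trans h3
  have := Fintype.ofFinite σ
  rw [Cardinal.mk_fintype] at h8
  rw [Nat.card_eq_fintype_card]
  exact_mod_cast h8

section span

variable {O Ω : Type} [CommRing O] [Field Ω] (f : O →+* Ω) (k' : Subfield Ω)

/-- the ring `k' · O` -/
def kO : Submodule k' Ω := Submodule.span k' (Set.range f)

variable {f k'}

theorem f_mem_kO (x : O) : f x ∈ kO f k' := Submodule.subset_span ⟨x, rfl⟩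

theorem mul_mem_kO {x y : Ω} (hx : x ∈ kO f k') (hy : y ∈ kO f k') : x * y ∈ kO f k' := by
  unfold kO at hx hy
  induction hx using Submodule.span_induction with
  | mem x hx =>
    obtain ⟨a, rfl⟩ := hx
    induction hy using Submodule.span_induction with
    | mem y hy =>
      obtain ⟨b, rfl⟩ := hy
      rw [← map_mul]; exact f_mem_kO _
    | zero => rw [mul_zero]; exact Submodule.zero_mem _
    | add y z _ _ ihy ihz => rw [mul_add]; exact Submodule.add_mem _ ihy ihz
    | smul c y _ ih => rw [mul_smul_comm]; exact Submodule.smul_mem _ _ ih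
  | zero => rw [zero_mul]; exact Submodule.zero_mem _
  | add x z _ _ ihx ihz => rw [add_mul]; exact Submodule.add_mem _ ihx ihz
  | smul c x _ ih => rw [smul_mul_assoc]; exact Submodule.smul_mem _ _ ih

theorem k_mem_kO {x : Ω} (hx : x ∈ k') : x ∈ kO f k' := by
  have : x = (⟨x, hx⟩ : k') • f 1 := by
    rw [map_one]
    show x = x * 1
    rw [mul_one]
  rw [this]
  exact Submodule.smul_mem _ _ (f_mem_kO 1)

/-- all coefficients lie in `k' · O` -/
def CkO (f : O →+* Ω) (k' : Subfield Ω) (p : PowerSeries Ω) : Prop :=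
  ∀ n, PowerSeries.coeff n p ∈ kO f k'

theorem CkO.add {p q : PowerSeries Ω} (hp : CkO f k' p) (hq : CkO f k' q) : CkO f k' (p + q) := by
  intro n
  rw [map_add]; exact Submodule.add_mem _ (hp n) (hq n)

theorem CkO.sub {p q : PowerSeries Ω} (hp : CkO f k' p) (hq : CkO f k' q) : CkO f k' (p - q) := by
  intro n
  rw [map_sub]; exact Submodule.sub_mem _ (hp n) (hq n)

theorem CkO.neg {p : PowerSeries Ω} (hp : CkO f k' p) : CkO f k' (-p) := by
  intro n
  rw [map_neg]; exact Submodule.neg_mem _ (hp n)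

theorem CkO.mul {p q : PowerSeries Ω} (hp : CkO f k' p) (hq : CkO f k' q) : CkO f k' (p * q) := by
  intro n
  rw [PowerSeries.coeff_mul]
  exact Submodule.sum_mem _ fun i _ => mul_mem_kO (hp _) (hq _)

theorem CkO_map (p : PowerSeries O) : CkO f k' (PowerSeries.map f p) := by
  intro n
  rw [PowerSeries.coeff_map]; exact f_mem_kO _

theorem CkO_k {p : PowerSeries Ω} (hp : ∀ n, PowerSeries.coeff n p ∈ k') : CkO f k' p :=
  fun n => k_mem_kO (hp n)

theorem CkO_of_X_pow_mul {p : PowerSeries Ω} {m : ℕ} (hp : CkO f k' (PowerSeries.X ^ m * p)) :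
    CkO f k' p := by
  intro n
  have := hp (n + m)
  rwa [PowerSeries.coeff_X_pow_mul] at this

end span

section deriv

variable {Ω : Type} [Field Ω] (D : Derivation ℤ Ω Ω)

/-- coefficientwise derivation -/
noncomputable def Dh (p : PowerSeries Ω) : PowerSeries Ω :=
  PowerSeries.mk fun n => D (PowerSeries.coeff n p)

theorem coeff_Dh (p : PowerSeries Ω) (n : ℕ) :
    PowerSeries.coeff n (Dh D p) = D (PowerSeries.coeff n p) := by
  simp [Dh]

theorem Dh_add (p q : PowerSeries Ω) : Dh D (p + q) = Dh D p + Dh D q := by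
  ext n
  simp [coeff_Dh]

theorem Dh_mul (p q : PowerSeries Ω) : Dh D (p * q) = Dh D p * q + p * Dh D q := by
  ext n
  rw [coeff_Dh, PowerSeries.coeff_mul, map_sum, map_add, PowerSeries.coeff_mul,
    PowerSeries.coeff_mul, ← Finset.sum_add_distrib]
  refine Finset.sum_congr rfl fun i _ => ?_
  rw [D.leibniz, coeff_Dh, coeff_Dh]
  simp only [smul_eq_mul]
  ring

theorem Dh_X_pow (m : ℕ) : Dh D (PowerSeries.X ^ m) = 0 := by
  ext n
  rw [coeff_Dh, PowerSeries.coeff_X_pow]
  split_ifs
  · have : D (1 : Ω) = 0 := D.map_one_eq_zero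
    rw [this]; simp
  · simp

end deriv

end Pool.Agent.Lib.MPbca609.H23
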