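import Mathlib
import Pool.Agent.Lib.MP_bca609_ag.H23.Trdeg

/-!
The formal local step: if a vector with coefficients in `k'`, divisible by a small power of the
uniformizer, lies in the lattice, then the derivative of its slope is regular up to `k'`.
-/

namespace Pool.Agent.Lib.MPbca609.H23

open PowerSeries

theorem CkO_Dh_map {O Ω : Type} [CommRing O] [Field Ω] (f : O →+* Ω) (k' : Subfield Ω)
    (D : Derivation ℤ Ω Ω) (hD : ∀ x : O, D (f x) ∈ Set.range f) (p : PowerSeries O) :
    CkO f k' (Dh D (PowerSeries.map f p)) := by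
  intro n
  rw [coeff_Dh, PowerSeries.coeff_map]
  obtain ⟨y, hy⟩ := hD (coeff n p)
  rw [← hy]
  exact f_mem_kO y

/-- The local step. -/
theorem local_step {O Ω : Type} [CommRing O] [Field Ω] (f : O →+* Ω) (k' : Subfield Ω)
    (D : Derivation ℤ Ω Ω) (hD : ∀ x : O, D (f x) ∈ Set.range f)
    (A B : Fin 2 → PowerSeries O) (n : ℕ) (υ : PowerSeries O) (hυ : IsUnit υ)
    (hAB : wedge A B = PowerSeries.X ^ n * υ)
    (γ : PowerSeries Ω) (hγ : ∀ i, PowerSeries.coeff i γ ∈ k')
    (a : ℕ) (ha : 2 * a < n) (α β : PowerSeries Ω)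
    (h0 : PowerSeries.X ^ a = α * PowerSeries.map f (A 0) + β * PowerSeries.map f (B 0))
    (h1 : PowerSeries.X ^ a * γ =
      α * PowerSeries.map f (A 1) + β * PowerSeries.map f (B 1)) :
    D (PowerSeries.coeff 0 γ) ∈ kO f k' := by
  obtain ⟨υi, hυi⟩ := hυ.exists_right_inv
  have hυi' : PowerSeries.map f υ * PowerSeries.map f υi = 1 := by
    rw [← map_mul, hυi, map_one]
  have hw : PowerSeries.map f (A 0) * PowerSeries.map f (B 1) -
      PowerSeries.map f (A 1) * PowerSeries.map f (B 0) = X ^ n * PowerSeries.map f υ := by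
    have := congrArg (PowerSeries.map f) hAB
    simpa [wedge] using this
  have hXa : (X : PowerSeries Ω) ^ a ≠ 0 := pow_ne_zero _ X_ne_zero
  have hn : (X : PowerSeries Ω) ^ n = X ^ a * X ^ (n - a) := by
    rw [← pow_add]; congr 1; omega
  have hCγ : CkO f k' γ := CkO_k hγ
  -- the two coefficients
  have e1 : X ^ (n - a) * (α * PowerSeries.map f υ) =
      PowerSeries.map f (B 1) - γ * PowerSeries.map f (B 0) := by
    apply mul_left_cancel₀ hXa
    linear_combination (- α * PowerSeries.map f υ) * hn - α * hw +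
      PowerSeries.map f (B 0) * h1 - PowerSeries.map f (B 1) * h0
  have e2 : X ^ (n - a) * (β * PowerSeries.map f υ) =
      γ * PowerSeries.map f (A 0) - PowerSeries.map f (A 1) := by
    apply mul_left_cancel₀ hXa
    linear_combination (- β * PowerSeries.map f υ) * hn - β * hw -
      PowerSeries.map f (A 0) * h1 + PowerSeries.map f (A 1) * h0
  have c1 : CkO f k' (α * PowerSeries.map f υ) := by
    apply CkO_of_X_pow_mul (m := n - a)
    rw [e1]
    exact (CkO_map _).sub (hCγ.mul (CkO_map _))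
  have c2 : CkO f k' (β * PowerSeries.map f υ) := by
    apply CkO_of_X_pow_mul (m := n - a)
    rw [e2]
    exact (hCγ.mul (CkO_map _)).sub (CkO_map _)
  have cα : CkO f k' α := by
    have : α = α * PowerSeries.map f υ * PowerSeries.map f υi := by
      rw [mul_assoc, hυi', mul_one]
    rw [this]
    exact c1.mul (CkO_map _)
  have cβ : CkO f k' β := by
    have : β = β * PowerSeries.map f υ * PowerSeries.map f υi := by
      rw [mul_assoc, hυi', mul_one]
    rw [this]
    exact c2.mul (CkO_map _)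
  -- differentiate
  have hneg : ∀ p : PowerSeries Ω, Dh D (-p) = - Dh D p := by
    intro p; ext i; simp [coeff_Dh]
  have hsub : ∀ p q : PowerSeries Ω, Dh D (p - q) = Dh D p - Dh D q := by
    intro p q; rw [sub_eq_add_neg, Dh_add, hneg, ← sub_eq_add_neg]
  have d1 := congrArg (Dh D) e1
  have d2 := congrArg (Dh D) e2
  rw [Dh_mul D (X ^ (n - a)) _, Dh_X_pow, zero_mul, zero_add, hsub,
    Dh_mul D γ (PowerSeries.map f (B 0))] at d1
  rw [Dh_mul D (X ^ (n - a)) _, Dh_X_pow, zero_mul, zero_add, hsub,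
    Dh_mul D γ (PowerSeries.map f (A 0))] at d2
  have key : X ^ a * Dh D γ =
      (α * (Dh D (PowerSeries.map f (A 1)) - γ * Dh D (PowerSeries.map f (A 0))) +
        β * (Dh D (PowerSeries.map f (B 1)) - γ * Dh D (PowerSeries.map f (B 0)))) +
      X ^ (n - a) * (α * Dh D (β * PowerSeries.map f υ) - β * Dh D (α * PowerSeries.map f υ)) := by
    linear_combination (Dh D γ) * h0 - α * d2 + β * d1
  have hcoef := congrArg (coeff a) key
  rw [map_add] at hcoef
  have z1 : coeff a (X ^ a * Dh D γ) = coeff 0 (Dh D γ) := by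
    have := coeff_X_pow_mul (Dh D γ) a 0
    rwa [zero_add] at this
  have z2 : coeff a (X ^ (n - a) * (α * Dh D (β * PowerSeries.map f υ) -
      β * Dh D (α * PowerSeries.map f υ))) = 0 := by
    rw [coeff_X_pow_mul']
    rw [if_neg (by omega)]
  rw [z1, z2, add_zero, coeff_Dh] at hcoef
  rw [hcoef]
  have cD : ∀ p : PowerSeries O, CkO f k' (Dh D (PowerSeries.map f p)) :=
    CkO_Dh_map f k' D hD
  exact ((cα.mul ((cD _).sub (hCγ.mul (cD _)))).add
    (cβ.mul ((cD _).sub (hCγ.mul (cD _))))) a

end Pool.Agent.Lib.MPbca609.H23
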