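import Mathlib
import Pool.Agent.Lib.MP_bca609_ag.H23.LocalStep

/-!
The generic lattice of a graded module.
-/

namespace Pool.Agent.Lib.MPbca609.H23

open MvPolynomial IsLocalRing

noncomputable section

variable {σ k : Type} [Field k]

/-- The generic vector. -/
def vF (u : Fin 2 → MvPolynomial σ (PowerSeries k)) :
    Fin 2 → PowerSeries (FractionRing (MvPolynomial σ k)) :=
  fun j => PowerSeries.map (algebraMap _ _) (rho σ k (u j))

/-- The generic vector of a local vector. -/
def toF (a : σ → k) (v : Fin 2 → PowerSeries (Loc a)) :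
    Fin 2 → PowerSeries (FractionRing (MvPolynomial σ k)) :=
  fun j => PowerSeries.map (locToFrac a) (v j)

theorem toF_vmap (a : σ → k) (u : Fin 2 → MvPolynomial σ (PowerSeries k)) :
    toF a (vmap a u) = vF u := by
  ext j n
  rw [toF, vF, vmap, rhoA]
  simp only [PowerSeries.coeff_map, RingHom.comp_apply]
  exact locToFrac_algebraMap a _

theorem vF_add (u v : Fin 2 → MvPolynomial σ (PowerSeries k)) : vF (u + v) = vF u + vF v := by
  ext1 j; simp [vF]

theorem vF_smul (c : MvPolynomial σ (PowerSeries k))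
    (u : Fin 2 → MvPolynomial σ (PowerSeries k)) :
    vF (c • u) = PowerSeries.map (algebraMap (MvPolynomial σ k)
      (FractionRing (MvPolynomial σ k))) (rho σ k c) • vF u := by
  ext1 j; simp [vF]

theorem toF_add (a : σ → k) (u v : Fin 2 → PowerSeries (Loc a)) :
    toF a (u + v) = toF a u + toF a v := by
  ext1 j; simp [toF]

theorem toF_smul (a : σ → k) (c : PowerSeries (Loc a)) (u : Fin 2 → PowerSeries (Loc a)) :
    toF a (c • u) = PowerSeries.map (locToFrac a) c • toF a u := by
  ext1 j; simp [toF]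

theorem toF_injective (a : σ → k) : Function.Injective (toF a) := by
  intro u v h
  ext j n
  have := congrFun h j
  have := congrArg (PowerSeries.coeff n) this
  rw [toF, toF, PowerSeries.coeff_map, PowerSeries.coeff_map] at this
  exact locToFrac_injective a this

/-- The generic lattice. -/
def VF (M : Submodule (MvPolynomial σ (PowerSeries k)) (Fin 2 → MvPolynomial σ (PowerSeries k))) :
    Submodule (PowerSeries (FractionRing (MvPolynomial σ k)))
      (Fin 2 → PowerSeries (FractionRing (MvPolynomial σ k))) :=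
  Submodule.span _ (vF '' M)

theorem vF_mem_VF {M : Submodule (MvPolynomial σ (PowerSeries k))
    (Fin 2 → MvPolynomial σ (PowerSeries k))}
    {u : Fin 2 → MvPolynomial σ (PowerSeries k)} (hu : u ∈ M) : vF u ∈ VF M :=
  Submodule.subset_span ⟨u, hu, rfl⟩

/-- The internal notion of a graded lattice. -/
structure GoodL (M : Submodule (MvPolynomial σ (PowerSeries k))
    (Fin 2 → MvPolynomial σ (PowerSeries k))) : Prop where
  hom : ∀ u ∈ M, ∀ d : ℕ, (fun j => homogeneousComponent d (u j)) ∈ M
  gen : ∃ N : ℕ, ∀ u : Fin 2 → MvPolynomial σ (PowerSeries k),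
    (C ((PowerSeries.X : PowerSeries k) ^ N) : MvPolynomial σ (PowerSeries k)) • u ∈ M
  fg2 : ∀ a : σ → k, a ≠ 0 → ∃ A B, Lat M a = Submodule.span _ {A, B}

theorem toF_mem_VF {M : Submodule (MvPolynomial σ (PowerSeries k))
    (Fin 2 → MvPolynomial σ (PowerSeries k))} (a : σ → k) (v : Fin 2 → PowerSeries (Loc a))
    (hv : v ∈ Lat M a) : toF a v ∈ VF M := by
  unfold Lat at hv
  induction hv using Submodule.span_induction with
  | mem x hx =>
    obtain ⟨u, hu, rfl⟩ := hx
    rw [toF_vmap]; exact vF_mem_VF hu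
  | zero =>
    have : toF a 0 = 0 := by ext1 j; simp [toF]
    rw [this]; exact Submodule.zero_mem _
  | add x y _ _ ihx ihy => rw [toF_add]; exact Submodule.add_mem _ ihx ihy
  | smul r x _ ih => rw [toF_smul]; exact Submodule.smul_mem _ _ ih

theorem VF_eq_span {M : Submodule (MvPolynomial σ (PowerSeries k))
    (Fin 2 → MvPolynomial σ (PowerSeries k))} (a : σ → k) (A B : Fin 2 → PowerSeries (Loc a))
    (hAB : Lat M a = Submodule.span _ {A, B}) :
    VF M = Submodule.span _ {toF a A, toF a B} := by
  apply le_antisymm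
  · unfold VF
    rw [Submodule.span_le]
    rintro _ ⟨u, hu, rfl⟩
    have h1 := vmap_mem_Lat a hu
    rw [hAB, mem_span_pair'] at h1
    obtain ⟨c, d, h1⟩ := h1
    rw [SetLike.mem_coe, mem_span_pair']
    refine ⟨PowerSeries.map (locToFrac a) c, PowerSeries.map (locToFrac a) d, ?_⟩
    rw [← toF_vmap a, h1, toF_add, toF_smul, toF_smul]
  · rw [Submodule.span_le]
    intro x hx
    rcases hx with rfl | hx
    · exact toF_mem_VF a A (by rw [hAB]; exact Submodule.subset_span (by simp))
    · rw [Set.mem_singleton_iff] at hx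
      rw [hx]
      exact toF_mem_VF a B (by rw [hAB]; exact Submodule.subset_span (by simp))

theorem toF_wedge (a : σ → k) (u v : Fin 2 → PowerSeries (Loc a)) :
    PowerSeries.map (locToFrac a) (wedge u v) = wedge (toF a u) (toF a v) := by
  simp [wedge, toF]

theorem X_pow_dvd_of_map (a : σ → k) (n : ℕ) (p : PowerSeries (Loc a))
    (h : (PowerSeries.X : PowerSeries (FractionRing (MvPolynomial σ k))) ^ n ∣
      PowerSeries.map (locToFrac a) p) : (PowerSeries.X : PowerSeries (Loc a)) ^ n ∣ p := by
  rw [PowerSeries.X_pow_dvd_iff] at h ⊢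
  intro m hm
  have := h m hm
  rw [PowerSeries.coeff_map] at this
  exact locToFrac_injective a (by rw [this, map_zero])

theorem wedge_smul_eq {R : Type*} [CommRing R] (A B v : Fin 2 → R) :
    wedge A B • v = wedge v B • A + wedge A v • B := by
  ext1 j
  fin_cases j <;> simp [wedge] <;> ring

theorem mem_Lat_of_toF {M : Submodule (MvPolynomial σ (PowerSeries k))
    (Fin 2 → MvPolynomial σ (PowerSeries k))} (hM : GoodL M) (a : σ → k) (ha : a ≠ 0)
    (v : Fin 2 → PowerSeries (Loc a)) (hv : toF a v ∈ VF M) : v ∈ Lat M a := by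
  obtain ⟨A, B, hAB⟩ := hM.fg2 a ha
  obtain ⟨N, hN⟩ := hM.gen
  obtain ⟨n, υ, hυ, hwedge⟩ := wedge_generators (Lat M a) A B hAB N (X_pow_smul_mem_Lat a hN)
  rw [VF_eq_span a A B hAB, mem_span_pair'] at hv
  obtain ⟨c, d, hv⟩ := hv
  have h1 : (PowerSeries.X : PowerSeries (Loc a)) ^ n ∣ wedge v B := by
    apply X_pow_dvd_of_map
    rw [toF_wedge, hv]
    have : wedge (c • toF a A + d • toF a B) (toF a B) = c * wedge (toF a A) (toF a B) := by
      simp only [wedge, Pi.add_apply, Pi.smul_apply, smul_eq_mul]; ring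
    rw [this, ← toF_wedge, hwedge, map_mul, map_pow, PowerSeries.map_X]
    exact ⟨c * PowerSeries.map (locToFrac a) υ, by ring⟩
  have h2 : (PowerSeries.X : PowerSeries (Loc a)) ^ n ∣ wedge A v := by
    apply X_pow_dvd_of_map
    rw [toF_wedge, hv]
    have : wedge (toF a A) (c • toF a A + d • toF a B) = d * wedge (toF a A) (toF a B) := by
      simp only [wedge, Pi.add_apply, Pi.smul_apply, smul_eq_mul]; ring
    rw [this, ← toF_wedge, hwedge, map_mul, map_pow, PowerSeries.map_X]
    exact ⟨d * PowerSeries.map (locToFrac a) υ, by ring⟩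
  obtain ⟨c', hc'⟩ := h1
  obtain ⟨d', hd'⟩ := h2
  obtain ⟨υ', hυ'⟩ := hυ.exists_right_inv
  have h3 := wedge_smul_eq A B v
  rw [hwedge, hc', hd', mul_smul, mul_smul, mul_smul, ← smul_add] at h3
  have h4 : υ • v = c' • A + d' • B := by
    ext1 j
    have h5 := congrFun h3 j
    simp only [Pi.smul_apply, smul_eq_mul] at h5
    exact mul_left_cancel₀ (pow_ne_zero _ PowerSeries.X_ne_zero) h5
  have h6 : v = υ' • (c' • A + d' • B) := by
    rw [← h4, smul_smul, mul_comm υ' υ, hυ', one_smul]
  rw [h6, hAB]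
  exact Submodule.smul_mem _ _ (Submodule.add_mem _
    (Submodule.smul_mem _ _ (Submodule.subset_span (by simp)))
    (Submodule.smul_mem _ _ (Submodule.subset_span (by simp))))

/-- Membership in the saturation. -/
def InSat (M : Submodule (MvPolynomial σ (PowerSeries k)) (Fin 2 → MvPolynomial σ (PowerSeries k)))
    (w : Fin 2 → MvPolynomial σ (PowerSeries k)) : Prop :=
  ∃ N : ℕ, ∀ i : σ, (X i : MvPolynomial σ (PowerSeries k)) ^ N • w ∈ M

/-- The saturation is determined by the generic lattice. -/
theorem inSat_of_vF [Finite σ] [IsAlgClosed k] {M : Submodule (MvPolynomial σ (PowerSeries k))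
    (Fin 2 → MvPolynomial σ (PowerSeries k))} (hM : GoodL M)
    (w : Fin 2 → MvPolynomial σ (PowerSeries k)) (hw : vF w ∈ VF M) : InSat M w := by
  obtain ⟨N, hN⟩ := hM.gen
  have hloc : ∀ a : σ → k, a ≠ 0 → ∃ q : MvPolynomial σ k, eval a q ≠ 0 ∧
      map PowerSeries.C q • w ∈ M := by
    intro a ha
    apply exists_smul_mem a hN
    apply mem_Lat_of_toF hM a ha
    rw [toF_vmap]; exact hw
  let J : Ideal (MvPolynomial σ k) :=
    { carrier := {q | map PowerSeries.C q • w ∈ M}
      add_mem' := by
        intro p q hp hq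
        show map PowerSeries.C (p + q) • w ∈ M
        rw [map_add, add_smul]; exact M.add_mem hp hq
      zero_mem' := by
        show MvPolynomial.map PowerSeries.C (0 : MvPolynomial σ k) • w ∈ M
        rw [map_zero, zero_smul]; exact M.zero_mem
      smul_mem' := by
        intro c q hq
        show map PowerSeries.C (c * q) • w ∈ M
        rw [map_mul, mul_smul]; exact M.smul_mem _ hq }
  obtain ⟨N', hN'⟩ := exists_X_pow_mem J (fun a ha => by
    obtain ⟨q, hq, hqw⟩ := hloc a ha
    exact ⟨q, hqw, hq⟩)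
  refine ⟨N', fun i => ?_⟩
  have := hN' i
  have h4 : map PowerSeries.C ((X i : MvPolynomial σ k) ^ N') • w ∈ M := this
  rwa [map_pow, map_X] at h4

/-- The converse. -/
theorem vF_of_inSat [Nonempty σ] {M : Submodule (MvPolynomial σ (PowerSeries k))
    (Fin 2 → MvPolynomial σ (PowerSeries k))}
    (w : Fin 2 → MvPolynomial σ (PowerSeries k)) (hw : InSat M w) : vF w ∈ VF M := by
  obtain ⟨i⟩ : Nonempty σ := inferInstance
  obtain ⟨N, hN⟩ := hw
  have h1 := vF_mem_VF (hN i)
  rw [vF_smul, map_pow, map_pow, rho_X, PowerSeries.map_C] at h1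
  have hne : algebraMap (MvPolynomial σ k) (FractionRing (MvPolynomial σ k)) (X i) ≠ 0 := by
    intro h0
    exact X_ne_zero i (IsFractionRing.injective (MvPolynomial σ k)
      (FractionRing (MvPolynomial σ k)) (by rw [h0, map_zero]))
  have h2 : vF w = (PowerSeries.C (algebraMap (MvPolynomial σ k)
      (FractionRing (MvPolynomial σ k)) (X i))⁻¹) ^ N •
      ((PowerSeries.C (algebraMap (MvPolynomial σ k)
      (FractionRing (MvPolynomial σ k)) (X i))) ^ N • vF w) := by
    rw [smul_smul, ← mul_pow, ← map_mul, inv_mul_cancel₀ hne, map_one, one_pow, one_smul]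
  rw [h2]
  exact Submodule.smul_mem _ _ h1

end

end Pool.Agent.Lib.MPbca609.H23
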