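import Mathlib
import Pool.Agent.Lib.MP_bca609_ag.H23.VF
import Pool.Agent.Lib.MP_bca609_ag.Heart

/-!
The case of non-constant slope.
-/

namespace Pool.Agent.Lib.MPbca609.H23

open MvPolynomial IsLocalRing

noncomputable section

theorem exists_lift {Ω : Type} [Field Ω] (k' : Subfield Ω) (p : PowerSeries Ω)
    (hp : ∀ i, PowerSeries.coeff i p ∈ k') :
    ∃ p' : PowerSeries k', PowerSeries.map k'.subtype p' = p := by
  refine ⟨PowerSeries.mk fun i => ⟨PowerSeries.coeff i p, hp i⟩, ?_⟩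
  ext i
  rw [PowerSeries.coeff_map, PowerSeries.coeff_mk]
  rfl

/-- The slope of a vector with coefficients in `k'`. -/
theorem exists_slope {Ω : Type} [Field Ω] (k' : Subfield Ω)
    (V : Submodule (PowerSeries Ω) (Fin 2 → PowerSeries Ω)) (A B : Fin 2 → PowerSeries Ω)
    (hV : V = Submodule.span _ {A, B}) (ν : ℕ) (υ : PowerSeries Ω)
    (hAB : wedge A B = PowerSeries.X ^ ν * υ)
    (q : Fin 2 → PowerSeries Ω) (hqL : ∀ j i, PowerSeries.coeff i (q j) ∈ k') (hq : q ∈ V)
    (a0 : ℕ) (ha0 : 2 * a0 < ν)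
    (hqd : ¬ (PowerSeries.X ^ (a0 + 1) ∣ q 0 ∧ PowerSeries.X ^ (a0 + 1) ∣ q 1))
    (u : Fin 2 → PowerSeries Ω) (hu : u ∈ V) (hu0 : PowerSeries.coeff 0 (u 0) ≠ 0) :
    ∃ a ≤ a0, ∃ γ : PowerSeries Ω, (∀ i, PowerSeries.coeff i γ ∈ k') ∧
      (fun j : Fin 2 => PowerSeries.X ^ a * (if j = 0 then 1 else γ)) ∈ V ∧
      PowerSeries.coeff 0 γ * PowerSeries.coeff 0 (u 0) = PowerSeries.coeff 0 (u 1) := by
  classical
  have hex : ∃ a, ¬ ((PowerSeries.X : PowerSeries Ω) ^ (a + 1) ∣ q 0 ∧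
    PowerSeries.X ^ (a + 1) ∣ q 1) := ⟨a0, hqd⟩
  let a := Nat.find hex
  have ha : ¬ ((PowerSeries.X : PowerSeries Ω) ^ (a + 1) ∣ q 0 ∧
    PowerSeries.X ^ (a + 1) ∣ q 1) := Nat.find_spec hex
  have hale : a ≤ a0 := Nat.find_le hqd
  have hdiv : ∀ j, (PowerSeries.X : PowerSeries Ω) ^ a ∣ q j := by
    rcases Nat.eq_zero_or_pos a with h0 | h0
    · intro j; rw [h0, pow_zero]; exact one_dvd _
    · obtain ⟨b, hb⟩ : ∃ b, a = b + 1 := ⟨a - 1, by omega⟩
      have h1 := Nat.find_min hex (m := b) (by show b < a; omega)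
      rw [not_not] at h1
      rw [hb]
      intro j
      fin_cases j
      · exact h1.1
      · exact h1.2
  choose q' hq' using hdiv
  have hq'L : ∀ j i, PowerSeries.coeff i (q' j) ∈ k' := by
    intro j i
    have := hqL j (i + a)
    rwa [hq' j, PowerSeries.coeff_X_pow_mul] at this
  have hq'w : PowerSeries.coeff 0 (wedge q' u) = 0 := by
    have h1 := hq
    have h2 := hu
    rw [hV, mem_span_pair'] at h1 h2
    obtain ⟨x, y, h1⟩ := h1
    obtain ⟨z, w, h2⟩ := h2
    have h3 : wedge q u = (x * w - y * z) * (PowerSeries.X ^ ν * υ) := by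
      rw [h1, h2, wedge_add_smul, hAB]
    have h4 : wedge q u = PowerSeries.X ^ a * wedge q' u := by
      simp only [wedge, hq' 0, hq' 1]; ring
    have h5 : (PowerSeries.X : PowerSeries Ω) ^ ν = PowerSeries.X ^ a * PowerSeries.X ^ (ν - a) := by
      rw [← pow_add]; congr 1; omega
    have h6 : wedge q' u = PowerSeries.X ^ (ν - a) * ((x * w - y * z) * υ) := by
      apply mul_left_cancel₀ (pow_ne_zero a (PowerSeries.X_ne_zero (R := Ω)))
      rw [← h4, h3, h5]; ring
    rw [h6, PowerSeries.coeff_X_pow_mul', if_neg (by omega)]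
  have hrel : PowerSeries.coeff 0 (q' 0) * PowerSeries.coeff 0 (u 1) =
      PowerSeries.coeff 0 (q' 1) * PowerSeries.coeff 0 (u 0) := by
    simp only [wedge, map_sub, PowerSeries.coeff_zero_eq_constantCoeff_apply, map_mul] at hq'w
    simp only [PowerSeries.coeff_zero_eq_constantCoeff_apply]
    exact sub_eq_zero.1 hq'w
  have hq0 : PowerSeries.coeff 0 (q' 0) ≠ 0 := by
    intro h0
    have h1 : PowerSeries.coeff 0 (q' 1) = 0 := by
      rw [h0, zero_mul] at hrel
      exact (mul_eq_zero.1 hrel.symm).resolve_right hu0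
    apply ha
    rw [PowerSeries.coeff_zero_eq_constantCoeff_apply, ← PowerSeries.X_dvd_iff] at h0 h1
    obtain ⟨r0, hr0⟩ := h0
    obtain ⟨r1, hr1⟩ := h1
    refine ⟨⟨r0, ?_⟩, ⟨r1, ?_⟩⟩
    · rw [hq' 0, hr0]; ring
    · rw [hq' 1, hr1]; ring
  obtain ⟨p0, hp0⟩ := exists_lift k' (q' 0) (hq'L 0)
  have hp0c : PowerSeries.constantCoeff p0 ≠ 0 := by
    intro h0
    apply hq0
    rw [← hp0, PowerSeries.coeff_map, PowerSeries.coeff_zero_eq_constantCoeff_apply, h0, map_zero]
  have hinv : q' 0 * PowerSeries.map k'.subtype p0⁻¹ = 1 := by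
    rw [← hp0, ← map_mul, PowerSeries.mul_inv_cancel p0 hp0c, map_one]
  have hinv0 : PowerSeries.coeff 0 (q' 0) *
      PowerSeries.coeff 0 (PowerSeries.map k'.subtype p0⁻¹) = 1 := by
    have := congrArg (PowerSeries.coeff 0) hinv
    simp only [PowerSeries.coeff_zero_eq_constantCoeff_apply, map_mul, map_one] at this ⊢
    exact this
  refine ⟨a, hale, q' 1 * PowerSeries.map k'.subtype p0⁻¹, ?_, ?_, ?_⟩
  · intro i
    rw [PowerSeries.coeff_mul]
    refine k'.sum_mem fun x _ => k'.mul_mem (hq'L 1 _) ?_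
    rw [PowerSeries.coeff_map]
    exact (PowerSeries.coeff x.2 p0⁻¹).2
  · have h1 : (fun j : Fin 2 => (PowerSeries.X : PowerSeries Ω) ^ a *
        (if j = 0 then 1 else q' 1 * PowerSeries.map k'.subtype p0⁻¹)) =
        PowerSeries.map k'.subtype p0⁻¹ • q := by
      ext1 j
      fin_cases j
      · simp only [Pi.smul_apply, smul_eq_mul, Fin.zero_eta, if_true, mul_one]
        rw [hq' 0]
        linear_combination (-(PowerSeries.X : PowerSeries Ω) ^ a) * hinv
      · simp only [Pi.smul_apply, smul_eq_mul, Fin.mk_one, one_ne_zero, if_false]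
        rw [hq' 1]; ring
    rw [h1]
    exact Submodule.smul_mem _ _ hq
  · have e0 : PowerSeries.coeff 0 (q' 1 * PowerSeries.map k'.subtype p0⁻¹) =
        PowerSeries.coeff 0 (q' 1) * PowerSeries.coeff 0 (PowerSeries.map k'.subtype p0⁻¹) := by
      simp only [PowerSeries.coeff_zero_eq_constantCoeff_apply, map_mul]
    rw [e0]
    linear_combination (-(PowerSeries.coeff 0 (PowerSeries.map k'.subtype p0⁻¹))) * hrel +
      PowerSeries.coeff 0 (u 1) * hinv0

end

end Pool.Agent.Lib.MPbca609.H23
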