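import Mathlib
import Pool.Agent.Lib.MP_bca609_ag.H23.StepE

/-!
The trichotomy for lattices close to a lattice over a small field.
-/

namespace Pool.Agent.Lib.MPbca609.H23

open MvPolynomial IsLocalRing

noncomputable section

variable {σ k : Type} [Field k]

/-- A derivation extending a derivation of a ring maps each localization to itself. -/
theorem D_range {S O Ω : Type*} [CommRing S] [CommRing O] [Field Ω] [Algebra S O]
    (Mo : Submonoid S) [IsLocalization Mo O] (f : O →+* Ω) (d : Derivation ℤ S S)
    (D : Derivation ℤ Ω Ω) (hD : ∀ x, D (f (algebraMap S O x)) = f (algebraMap S O (d x)))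
    (x : O) : D (f x) ∈ Set.range f := by
  obtain ⟨p, q, rfl⟩ := IsLocalization.exists_mk'_eq Mo x
  refine ⟨IsLocalization.mk' O ((q : S) * d p - p * d q) (q * q), ?_⟩
  have hq0 : f (algebraMap S O q) ≠ 0 :=
    ((IsLocalization.map_units O q).map f).ne_zero
  have h1 : f (algebraMap S O q) * f (IsLocalization.mk' O p q) = f (algebraMap S O p) := by
    rw [← map_mul, IsLocalization.mk'_spec']
  have h2 : f (algebraMap S O (q * q)) *
      f (IsLocalization.mk' O ((q : S) * d p - p * d q) (q * q)) =
      f (algebraMap S O (q * d p - p * d q)) := by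
    rw [← map_mul]
    congr 1
    have := IsLocalization.mk'_spec' O ((q : S) * d p - p * d q) (q * q)
    rwa [Submonoid.coe_mul] at this
  have h4 := congrArg D h1
  rw [D.leibniz, hD, hD, smul_eq_mul, smul_eq_mul] at h4
  simp only [map_mul, map_sub] at h2
  apply mul_left_cancel₀ (mul_ne_zero hq0 hq0)
  rw [h2]
  linear_combination (f (algebraMap S O (d q))) * h1 - (f (algebraMap S O q)) * h4

theorem D_div {Ω : Type*} [Field Ω] (D : Derivation ℤ Ω Ω) (g h : Ω) (hg : g ≠ 0) :
    D (h / g) = (g * D h - h * D g) / g ^ 2 := by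
  have h1 : g * (h / g) = h := by field_simp
  have h2 := congrArg D h1
  rw [D.leibniz, smul_eq_mul, smul_eq_mul] at h2
  rw [eq_div_iff (pow_ne_zero 2 hg)]
  linear_combination g * h2 - (D g) * h1

theorem vF_wedge (u v : Fin 2 → MvPolynomial σ (PowerSeries k)) :
    wedge (vF u) (vF v) = PowerSeries.map (algebraMap (MvPolynomial σ k)
      (FractionRing (MvPolynomial σ k))) (rho σ k (wedge u v)) := by
  simp [wedge, vF]

/-- If a vector is not in the generic lattice then all wedges vanish modulo the uniformizer. -/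
theorem wedge_coeff_zero {M : Submodule (MvPolynomial σ (PowerSeries k))
    (Fin 2 → MvPolynomial σ (PowerSeries k))}
    (e : Fin 2 → PowerSeries (FractionRing (MvPolynomial σ k))) (he : e ∉ VF M) :
    ∀ u ∈ M, ∀ v ∈ M, PowerSeries.coeff 0 (rho σ k (wedge u v)) = 0 := by
  intro u hu v hv
  by_contra h0
  apply he
  have hunit : IsUnit (wedge (vF u) (vF v)) := by
    rw [PowerSeries.isUnit_iff_constantCoeff, vF_wedge, isUnit_iff_ne_zero,
      ← PowerSeries.coeff_zero_eq_constantCoeff_apply, PowerSeries.coeff_map]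
    intro h1
    exact h0 (IsFractionRing.injective (MvPolynomial σ k) (FractionRing (MvPolynomial σ k))
      (by rw [h1, map_zero]))
  obtain ⟨y, hy⟩ := hunit.exists_left_inv
  have h1 : e = y • (wedge (vF u) (vF v) • e) := by rw [smul_smul, hy, one_smul]
  rw [h1, wedge_smul_eq]
  exact Submodule.smul_mem _ _ (Submodule.add_mem _ (Submodule.smul_mem _ _ (vF_mem_VF hu))
    (Submodule.smul_mem _ _ (vF_mem_VF hv)))

theorem dichotomyL [IsAlgClosed k] [CharZero k] [Finite σ] (m : ℕ) (hσ : m + 2 ≤ Nat.card σ)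
    {M : Submodule (MvPolynomial σ (PowerSeries k)) (Fin 2 → MvPolynomial σ (PowerSeries k))}
    (hM : GoodL M)
    (hinj : Function.Injective (algebraMap (MvPolynomial σ k) (FractionRing (MvPolynomial σ k))))
    (L : IntermediateField k (FractionRing (MvPolynomial σ k)))
    (hL : L.toSubfield ≤ homFrac σ k _ hinj) (hLt : Algebra.trdeg k L ≤ m)
    (s : ℕ) (e : Fin 2 → PowerSeries (FractionRing (MvPolynomial σ k)))
    (he : (PowerSeries.X : PowerSeries (FractionRing (MvPolynomial σ k))) ^ (2 * s) • e ∉ VF M)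
    (q0 q1 : Fin 2 → PowerSeries (FractionRing (MvPolynomial σ k)))
    (hq0L : ∀ j i, PowerSeries.coeff i (q0 j) ∈ L) (hq1L : ∀ j i, PowerSeries.coeff i (q1 j) ∈ L)
    (hq0 : q0 ∈ VF M) (hq1 : q1 ∈ VF M)
    (hs : ∀ u ∈ M, (PowerSeries.X : PowerSeries (FractionRing (MvPolynomial σ k))) ^ s • vF u ∈
      Submodule.span (PowerSeries (FractionRing (MvPolynomial σ k))) {q0, q1}) :
    (∀ u ∈ M, ∀ j, PowerSeries.coeff 0 (rho σ k (u j)) = 0) ∨
    (∃ c : k, ∀ u ∈ M, PowerSeries.coeff 0 (rho σ k (u 1)) =
      C c * PowerSeries.coeff 0 (rho σ k (u 0))) ∨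
    (∀ u ∈ M, PowerSeries.coeff 0 (rho σ k (u 0)) = 0) := by
  classical
  have : Nonempty σ := by
    by_contra hcon
    rw [not_nonempty_iff] at hcon
    rw [Nat.card_of_isEmpty] at hσ
    omega
  have hdeg := wedge_coeff_zero _ he
  by_cases hall : ∀ u ∈ M, ∀ j, PowerSeries.coeff 0 (rho σ k (u j)) = 0
  · exact Or.inl hall
  right
  push Not at hall
  obtain ⟨u0, hu0, j0, hj0⟩ := hall
  -- a homogeneous element
  obtain ⟨d, hd⟩ : ∃ d, homogeneousComponent d (PowerSeries.coeff 0 (rho σ k (u0 j0))) ≠ 0 := by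
    by_contra hcon
    push Not at hcon
    apply hj0
    rw [← sum_homogeneousComponent (PowerSeries.coeff 0 (rho σ k (u0 j0)))]
    exact Finset.sum_eq_zero fun i _ => hcon i
  set us : Fin 2 → MvPolynomial σ (PowerSeries k) := fun j => homogeneousComponent d (u0 j) with hus
  have husM : us ∈ M := hM.hom u0 hu0 d
  have hushom : ∀ j n, (PowerSeries.coeff n (rho σ k (us j))).IsHomogeneous d := fun j n =>
    coeff_rho_isHomogeneous (homogeneousComponent_isHomogeneous _ _) n
  have husne : PowerSeries.coeff 0 (rho σ k (us j0)) ≠ 0 := by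
    rw [hus]
    simp only
    rw [coeff_rho_homogeneousComponent]; exact hd
  set g := PowerSeries.coeff 0 (rho σ k (us 0)) with hg
  set h := PowerSeries.coeff 0 (rho σ k (us 1)) with hh
  have hrel : ∀ u ∈ M, PowerSeries.coeff 0 (rho σ k (u 0)) * h =
      PowerSeries.coeff 0 (rho σ k (u 1)) * g := by
    intro u hu
    have := hdeg u hu us husM
    rw [rho_wedge] at this
    simp only [wedge, map_sub] at this
    rw [PowerSeries.coeff_zero_eq_constantCoeff_apply,
      PowerSeries.coeff_zero_eq_constantCoeff_apply, map_mul, map_mul, sub_eq_zero] at this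
    simpa [hg, hh] using this
  by_cases hg0 : g = 0
  · right
    intro u hu
    have hh0 : h ≠ 0 := by
      fin_cases j0
      · exact absurd hg0 husne
      · exact husne
    have := hrel u hu
    rw [hg0, mul_zero] at this
    exact (mul_eq_zero.1 this).resolve_right hh0
  left
  by_cases hc : ∃ c : k, h = C c * g
  · obtain ⟨c, hc⟩ := hc
    refine ⟨c, fun u hu => ?_⟩
    have := hrel u hu
    rw [hc] at this
    apply mul_right_cancel₀ hg0
    rw [← this]; ring
  exfalso
  obtain ⟨i, hi⟩ : ∃ i, g * pderiv i h ≠ h * pderiv i g := by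
    by_contra hcon
    push Not at hcon
    exact hc (exists_C_mul_of_pderiv hg0 hcon)
  -- degree at least one
  have hd1 : 1 ≤ d := by
    by_contra hcon
    have hd0 : d = 0 := by omega
    subst hd0
    have e1 : g = C (coeff 0 g) := by
      rw [← homogeneousComponent_zero, homogeneousComponent_eq_self (hushom 0 0)]
    have e2 : h = C (coeff 0 h) := by
      rw [← homogeneousComponent_zero, homogeneousComponent_eq_self (hushom 1 0)]
    apply hi
    rw [e1, e2, pderiv_C, pderiv_C, mul_zero, mul_zero]
  set ι := algebraMap (MvPolynomial σ k) (FractionRing (MvPolynomial σ k)) with hι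
  have hgΩ : ι g ≠ 0 := fun h0 => hg0 (hinj (by rw [h0, map_zero]))
  set c0 : FractionRing (MvPolynomial σ k) := ι h / ι g with hc0
  set W : FractionRing (MvPolynomial σ k) :=
    (ι g * ι (pderiv i h) - ι h * ι (pderiv i g)) / ι g ^ 2 with hW
  have hW0 : W ≠ 0 := by
    intro h0
    rw [hW, div_eq_zero_iff] at h0
    rcases h0 with h0 | h0
    · apply hi
      apply hinj
      rw [map_mul, map_mul]
      exact sub_eq_zero.1 h0
    · exact pow_ne_zero 2 hgΩ h0
  let k' : Subfield (FractionRing (MvPolynomial σ k)) := L.toSubfield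
  have hkk : ∀ c : k, ι (C c) ∈ k' := by
    intro c
    have : ι (C c) = algebraMap k (FractionRing (MvPolynomial σ k)) c := by
      rw [IsScalarTower.algebraMap_apply k (MvPolynomial σ k)]; rfl
    rw [this]
    exact L.algebraMap_mem c
  -- the derivation
  obtain ⟨D, hD⟩ := exists_derivation_localization (S := MvPolynomial σ k)
    (O := FractionRing (MvPolynomial σ k)) (nonZeroDivisors (MvPolynomial σ k))
    ((pderiv (R := k) i).restrictScalars ℤ)
  have hD' : ∀ x : MvPolynomial σ k, D (ι x) = ι (pderiv i x) := hD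
  have hDc : D c0 = W := by
    rw [hc0, D_div D _ _ hgΩ, hD', hD']
  -- the vector with coefficients in the small field
  have hvF0 : PowerSeries.coeff 0 (vF us 0) = ι g := by
    rw [vF, PowerSeries.coeff_map]
  have hvF1 : PowerSeries.coeff 0 (vF us 1) = ι h := by
    rw [vF, PowerSeries.coeff_map]
  obtain ⟨q, hqL, hqV, hqd⟩ : ∃ q : Fin 2 → PowerSeries (FractionRing (MvPolynomial σ k)),
      (∀ j i, PowerSeries.coeff i (q j) ∈ k') ∧ q ∈ VF M ∧
      ¬ ((PowerSeries.X : PowerSeries (FractionRing (MvPolynomial σ k))) ^ (s + 1) ∣ q 0 ∧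
        PowerSeries.X ^ (s + 1) ∣ q 1) := by
    by_contra hcon
    push Not at hcon
    obtain ⟨⟨y0, hy0⟩, -⟩ := hcon q0 hq0L hq0
    obtain ⟨⟨y1, hy1⟩, -⟩ := hcon q1 hq1L hq1
    have h1 := hs us husM
    rw [mem_span_pair'] at h1
    obtain ⟨x, y, h1⟩ := h1
    have h2 := congrFun h1 0
    simp only [Pi.smul_apply, Pi.add_apply, smul_eq_mul, hy0, hy1] at h2
    have h3 : vF us 0 = PowerSeries.X * (x * y0 + y * y1) := by
      apply mul_left_cancel₀ (pow_ne_zero s
        (PowerSeries.X_ne_zero (R := FractionRing (MvPolynomial σ k))))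
      rw [h2]; ring
    apply hgΩ
    rw [← hvF0, h3, PowerSeries.coeff_zero_eq_constantCoeff_apply, map_mul,
      PowerSeries.constantCoeff_X, zero_mul]
  obtain ⟨N0, hN0⟩ := hM.gen
  -- local statement
  have hlocal : ∀ a : σ → k, a ≠ 0 → ∃ q : MvPolynomial σ k, eval a q ≠ 0 ∧
      ι q * W ∈ Submodule.span k' (Set.range ι) := by
    intro a ha
    obtain ⟨A, B, hAB⟩ := hM.fg2 a ha
    obtain ⟨n, υ, hυ, hwedge⟩ :=
      wedge_generators (Lat M a) A B hAB N0 (X_pow_smul_mem_Lat a hN0)
    have hVF := VF_eq_span a A B hAB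
    have hwF : wedge (toF a A) (toF a B) =
        PowerSeries.X ^ n * PowerSeries.map (locToFrac a) υ := by
      rw [← toF_wedge, hwedge, map_mul, map_pow, PowerSeries.map_X]
    have hn : 2 * s < n := by
      by_contra hcon
      apply he
      obtain ⟨υ', hυ'⟩ := (hυ.map (PowerSeries.map (locToFrac a))).exists_left_inv
      have h1 : (PowerSeries.X : PowerSeries (FractionRing (MvPolynomial σ k))) ^ (2 * s) • e =
          (PowerSeries.X ^ (2 * s - n) * υ') • (wedge (toF a A) (toF a B) • e) := by
        rw [smul_smul, hwF]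
        congr 1
        have h2 : (PowerSeries.X : PowerSeries (FractionRing (MvPolynomial σ k))) ^ (2 * s) =
            PowerSeries.X ^ (2 * s - n) * PowerSeries.X ^ n := by
          rw [← pow_add]; congr 1; omega
        rw [h2]
        linear_combination (-(PowerSeries.X ^ (2 * s - n) * PowerSeries.X ^ n)) * hυ'
      rw [h1, wedge_smul_eq, hVF]
      exact Submodule.smul_mem _ _ (Submodule.add_mem _
        (Submodule.smul_mem _ _ (Submodule.subset_span (by simp)))
        (Submodule.smul_mem _ _ (Submodule.subset_span (by simp))))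
    obtain ⟨a', ha', γ, hγ, hγV, hγ0⟩ := exists_slope k' (VF M) (toF a A) (toF a B) hVF n _ hwF
      q hqL hqV s hn hqd (vF us) (vF_mem_VF husM) (by rw [hvF0]; exact hgΩ)
    rw [hVF, mem_span_pair'] at hγV
    obtain ⟨α, β, hαβ⟩ := hγV
    have h0 := congrFun hαβ 0
    have h1 := congrFun hαβ 1
    simp only [if_true, mul_one, Pi.add_apply, Pi.smul_apply, smul_eq_mul, one_ne_zero,
      if_false] at h0 h1
    have key := local_step (locToFrac a) k' D (D_range (mIdeal a).primeCompl (locToFrac a) _ D
      (fun x => by rw [locToFrac_algebraMap, locToFrac_algebraMap]; exact hD x)) A B n υ hυ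
      hwedge γ hγ a' (by omega) α β h0 h1
    have hγc : PowerSeries.coeff 0 γ = c0 := by
      rw [hvF0, hvF1] at hγ0
      rw [hc0, eq_div_iff hgΩ]
      exact hγ0
    rw [hγc, hDc] at key
    exact exists_mul_mem_span a k' W key
  -- the ideal of denominators
  let J : Ideal (MvPolynomial σ k) :=
    { carrier := {q | ι q * W ∈ Submodule.span k' (Set.range ι)}
      add_mem' := by
        intro p q hp hq
        show ι (p + q) * W ∈ Submodule.span k' (Set.range ι)
        rw [map_add, add_mul]; exact Submodule.add_mem _ hp hq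
      zero_mem' := by
        show ι 0 * W ∈ Submodule.span k' (Set.range ι)
        rw [map_zero, zero_mul]; exact Submodule.zero_mem _
      smul_mem' := by
        intro c q hq
        show ι (c * q) * W ∈ Submodule.span k' (Set.range ι)
        rw [map_mul, mul_assoc]; exact mul_mem_span _ _ _ hq }
  obtain ⟨N, hN⟩ := exists_X_pow_mem J (fun a ha => by
    obtain ⟨q, hq, hqW⟩ := hlocal a ha
    exact ⟨q, hqW, hq⟩)
  have hint : ∀ j : σ, IsIntegral k' (ι (X j) * W) := by
    intro j
    refine isIntegral_X_mul hinj k' hL hkk W (g * pderiv i h - h * pderiv i g) (g * g)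
      (d + (d - 1)) ?_ (mul_ne_zero hg0 hg0) ?_ ?_ N (fun j => hN j) j
    · have := (hushom 0 0).mul (hushom 0 0)
      have e : d + (d - 1) + 1 = d + d := by omega
      rw [e]; exact this
    · exact ((hushom 0 0).mul (hushom 1 0).pderiv).sub ((hushom 1 0).mul (hushom 0 0).pderiv)
    · show ι (g * g) * W = ι (g * pderiv i h - h * pderiv i g)
      rw [hW, map_mul, map_sub, map_mul, map_mul]
      field_simp
  have hint' : ∀ j : σ, IsIntegral L (ι (X j) * W) := fun j => hint j
  have hcard := card_le_of_trdeg (σ := σ) (k := k) L m hLt W hW0 hint'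
  omega

end

end Pool.Agent.Lib.MPbca609.H23
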