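import Mathlib
import Pool.Agent.Lib.MP_bca609_ag.H23.StepF
import Pool.Agent.Lib.MP_bca609_ag.Induct

/-!
The induction.
-/

namespace Pool.Agent.Lib.MPbca609.H23

open MvPolynomial IsLocalRing Matrix

noncomputable section

variable {σ k : Type} [Field k]

theorem GoodL.pull {M : Submodule (MvPolynomial σ (PowerSeries k))
    (Fin 2 → MvPolynomial σ (PowerSeries k))} (hM : GoodL M)
    {P : Matrix (Fin 2) (Fin 2) (PowerSeries k)} (hP : P.det ≠ 0)
    (hle : ∀ u ∈ M, ∃ v, u = act P v) : GoodL (pull P M) where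
  hom := by
    intro u hu d
    have h1 := hM.hom _ hu d
    rw [mem_pull]
    have h2 : act P (fun j => homogeneousComponent d (u j)) =
        fun j => homogeneousComponent d (act P u j) := by
      ext1 j
      rw [act_apply, act_apply, map_add, homogeneousComponent_C_mul, homogeneousComponent_C_mul]
    rw [h2]; exact h1
  gen := by
    obtain ⟨N, hN⟩ := hM.gen
    refine ⟨N, fun u => ?_⟩
    rw [mem_pull, map_smul]
    exact hN _
  fg2 := by
    intro a ha
    obtain ⟨A, B, hAB⟩ := hM.fg2 a ha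
    rw [Lat_pull a P hle] at hAB
    have hA : A ∈ (Lat (MPbca609.pull P M) a).map (actA a P) := by
      rw [hAB]; exact Submodule.subset_span (by simp)
    have hB : B ∈ (Lat (MPbca609.pull P M) a).map (actA a P) := by
      rw [hAB]; exact Submodule.subset_span (by simp)
    obtain ⟨A1, hA1, rfl⟩ := hA
    obtain ⟨B1, hB1, rfl⟩ := hB
    refine ⟨A1, B1, le_antisymm ?_ ?_⟩
    · intro x hx
      have h1 : actA a P x ∈ Submodule.span (PowerSeries (Loc a)) {actA a P A1, actA a P B1} := by
        rw [← hAB]; exact ⟨x, hx, rfl⟩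
      rw [mem_span_pair'] at h1 ⊢
      obtain ⟨c, d, h1⟩ := h1
      refine ⟨c, d, ?_⟩
      apply actA_injective a hP
      rw [h1, map_add, map_smul, map_smul]
    · rw [Submodule.span_le]
      rintro x hx
      rcases hx with rfl | hx
      · exact hA1
      · rw [Set.mem_singleton_iff] at hx; rw [hx]; exact hB1

/-- The embedding of constant power series. -/
def emb (σ k : Type) [Field k] : PowerSeries k →+* PowerSeries (FractionRing (MvPolynomial σ k)) :=
  (PowerSeries.map (algebraMap (MvPolynomial σ k) (FractionRing (MvPolynomial σ k)))).comp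
    (PowerSeries.map (C : k →+* MvPolynomial σ k))

theorem emb_eq (c : PowerSeries k) :
    PowerSeries.map (algebraMap (MvPolynomial σ k) (FractionRing (MvPolynomial σ k)))
      (rho σ k (C c)) = emb σ k c := by
  rw [rho_C]; rfl

theorem coeff_emb (c : PowerSeries k) (i : ℕ) :
    PowerSeries.coeff i (emb σ k c) =
      algebraMap k (FractionRing (MvPolynomial σ k)) (PowerSeries.coeff i c) := by
  rw [emb, RingHom.comp_apply, PowerSeries.coeff_map, PowerSeries.coeff_map,
    IsScalarTower.algebraMap_apply k (MvPolynomial σ k)]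
  rfl

theorem emb_X_pow (j : ℕ) : emb σ k (PowerSeries.X ^ j) = PowerSeries.X ^ j := by
  simp [emb]

/-- The action on generic vectors. -/
def actF (P : Matrix (Fin 2) (Fin 2) (PowerSeries k)) :
    (Fin 2 → PowerSeries (FractionRing (MvPolynomial σ k))) →ₗ[PowerSeries (FractionRing
      (MvPolynomial σ k))] (Fin 2 → PowerSeries (FractionRing (MvPolynomial σ k))) :=
  Matrix.mulVecLin (P.map (emb σ k))

theorem actF_apply (P : Matrix (Fin 2) (Fin 2) (PowerSeries k))
    (u : Fin 2 → PowerSeries (FractionRing (MvPolynomial σ k))) (i : Fin 2) :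
    actF P u i = emb σ k (P i 0) * u 0 + emb σ k (P i 1) * u 1 := by
  simp [actF, Matrix.mulVec, dotProduct, Fin.sum_univ_two]

theorem vF_act (P : Matrix (Fin 2) (Fin 2) (PowerSeries k))
    (u : Fin 2 → MvPolynomial σ (PowerSeries k)) : vF (act P u) = actF P (vF u) := by
  ext1 i
  rw [actF_apply]
  simp only [vF, act_apply, map_add, map_mul, emb_eq]

theorem det_mul_actF (P : Matrix (Fin 2) (Fin 2) (PowerSeries k))
    (v : Fin 2 → PowerSeries (FractionRing (MvPolynomial σ k))) :
    emb σ k P.det * v 0 = emb σ k (P 1 1) * actF P v 0 - emb σ k (P 0 1) * actF P v 1 ∧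
    emb σ k P.det * v 1 = emb σ k (P 0 0) * actF P v 1 - emb σ k (P 1 0) * actF P v 0 := by
  rw [actF_apply, actF_apply, Matrix.det_fin_two]
  simp only [map_sub, map_mul]
  constructor <;> ring

theorem emb_ne_zero {c : PowerSeries k} (hc : c ≠ 0) : emb σ k c ≠ 0 := by
  intro h
  apply hc
  ext i
  have := congrArg (PowerSeries.coeff i) h
  rw [coeff_emb, map_zero] at this
  rw [map_zero]
  exact (algebraMap k (FractionRing (MvPolynomial σ k))).injective (by rw [this, map_zero])

theorem actF_injective {P : Matrix (Fin 2) (Fin 2) (PowerSeries k)}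
    (hP : P.det ≠ 0) : Function.Injective (actF (σ := σ) P) := by
  rw [injective_iff_map_eq_zero]
  intro v hv
  obtain ⟨h0, h1⟩ := det_mul_actF P v
  have e0 : actF P v 0 = 0 := by rw [hv]; rfl
  have e1 : actF P v 1 = 0 := by rw [hv]; rfl
  rw [e0, e1, mul_zero, mul_zero, sub_zero] at h0 h1
  ext1 i
  fin_cases i
  · exact (mul_eq_zero.1 h0).resolve_left (emb_ne_zero hP)
  · exact (mul_eq_zero.1 h1).resolve_left (emb_ne_zero hP)

theorem VF_pull (P : Matrix (Fin 2) (Fin 2) (PowerSeries k))
    {M : Submodule (MvPolynomial σ (PowerSeries k)) (Fin 2 → MvPolynomial σ (PowerSeries k))}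
    (hle : ∀ u ∈ M, ∃ v, u = act P v) : VF M = (VF (pull P M)).map (actF P) := by
  unfold VF
  rw [Submodule.map_span]
  congr 1
  ext x
  constructor
  · rintro ⟨u, hu, rfl⟩
    obtain ⟨v, rfl⟩ := hle u hu
    exact ⟨vF v, ⟨v, hu, rfl⟩, (vF_act P v).symm⟩
  · rintro ⟨_, ⟨v, hv, rfl⟩, rfl⟩
    exact ⟨act P v, hv, vF_act P v⟩

/-- Transport of vectors with coefficients in a subfield. -/
theorem transport_vector (L : IntermediateField k (FractionRing (MvPolynomial σ k)))
    (P : Matrix (Fin 2) (Fin 2) (PowerSeries k)) (j : ℕ) (hP : P.det = PowerSeries.X ^ j)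
    {M : Submodule (MvPolynomial σ (PowerSeries k)) (Fin 2 → MvPolynomial σ (PowerSeries k))}
    (hle : ∀ u ∈ M, ∃ v, u = act P v)
    (q : Fin 2 → PowerSeries (FractionRing (MvPolynomial σ k)))
    (hqL : ∀ j i, PowerSeries.coeff i (q j) ∈ L) (hq : q ∈ VF M) :
    ∃ q', (∀ j i, PowerSeries.coeff i (q' j) ∈ L) ∧ q' ∈ VF (pull P M) ∧ q = actF P q' := by
  rw [VF_pull P hle] at hq
  obtain ⟨q', hq', hqq⟩ := hq
  refine ⟨q', ?_, hq', hqq.symm⟩
  obtain ⟨h0, h1⟩ := det_mul_actF P q'
  rw [hqq, hP, emb_X_pow] at h0 h1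
  have hmul : ∀ (c : PowerSeries k) (l i), PowerSeries.coeff i (emb σ k c * q l) ∈ L := by
    intro c l i
    rw [PowerSeries.coeff_mul]
    refine L.sum_mem fun x _ => L.mul_mem ?_ (hqL _ _)
    rw [coeff_emb]
    exact L.algebraMap_mem _
  intro l i
  fin_cases l
  · have := congrArg (PowerSeries.coeff (i + j)) h0
    rw [PowerSeries.coeff_X_pow_mul, map_sub] at this
    show PowerSeries.coeff i (q' 0) ∈ L
    rw [this]
    exact L.sub_mem (hmul _ _ _) (hmul _ _ _)
  · have := congrArg (PowerSeries.coeff (i + j)) h1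
    rw [PowerSeries.coeff_X_pow_mul, map_sub] at this
    show PowerSeries.coeff i (q' 1) ∈ L
    rw [this]
    exact L.sub_mem (hmul _ _ _) (hmul _ _ _)

/-- The conclusion of the main theorem. -/
def Near (s : ℕ) (M : Submodule (MvPolynomial σ (PowerSeries k))
    (Fin 2 → MvPolynomial σ (PowerSeries k))) : Prop :=
  ∃ P : Matrix (Fin 2) (Fin 2) (PowerSeries k), P.det ≠ 0 ∧
    (∀ u ∈ M, ∃ w, u = act P w) ∧
    ∀ w : Fin 2 → MvPolynomial σ (PowerSeries k),
      InSat M ((C ((PowerSeries.X : PowerSeries k) ^ (2 * s)) : MvPolynomial σ (PowerSeries k)) •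
        act P w)

theorem near_of_pull {s : ℕ} {M : Submodule (MvPolynomial σ (PowerSeries k))
    (Fin 2 → MvPolynomial σ (PowerSeries k))}
    {P : Matrix (Fin 2) (Fin 2) (PowerSeries k)} (hP : P.det ≠ 0)
    (hle : ∀ u ∈ M, ∃ v, u = act P v) (h : Near s (pull P M)) : Near s M := by
  obtain ⟨P', hP', H1, H2⟩ := h
  refine ⟨P * P', by rw [Matrix.det_mul]; exact mul_ne_zero hP hP', ?_, ?_⟩
  · intro u hu
    obtain ⟨v, rfl⟩ := hle u hu
    obtain ⟨w, rfl⟩ := H1 v hu
    exact ⟨w, (act_mul P P' w).symm⟩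
  · intro w
    obtain ⟨N, hN⟩ := H2 w
    refine ⟨N, fun i => ?_⟩
    have := hN i
    rw [mem_pull, map_smul, map_smul] at this
    rw [act_mul]
    exact this

theorem near_induction [IsAlgClosed k] [CharZero k] [Finite σ] (m : ℕ) (hσ : m + 2 ≤ Nat.card σ)
    (hinj : Function.Injective (algebraMap (MvPolynomial σ k) (FractionRing (MvPolynomial σ k))))
    (L : IntermediateField k (FractionRing (MvPolynomial σ k)))
    (hL : L.toSubfield ≤ homFrac σ k _ hinj) (hLt : Algebra.trdeg k L ≤ m) (s : ℕ) (K : ℕ) :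
    ∀ M : Submodule (MvPolynomial σ (PowerSeries k)) (Fin 2 → MvPolynomial σ (PowerSeries k)),
      GoodL M → (∃ u ∈ M, ∃ v ∈ M,
        ¬ (PowerSeries.X : PowerSeries (MvPolynomial σ k)) ^ (K + 1) ∣ rho σ k (wedge u v)) →
      ∀ q0 q1 : Fin 2 → PowerSeries (FractionRing (MvPolynomial σ k)),
      (∀ j i, PowerSeries.coeff i (q0 j) ∈ L) → (∀ j i, PowerSeries.coeff i (q1 j) ∈ L) →
      q0 ∈ VF M → q1 ∈ VF M →
      (∀ u ∈ M, (PowerSeries.X : PowerSeries (FractionRing (MvPolynomial σ k))) ^ s • vF u ∈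
        Submodule.span (PowerSeries (FractionRing (MvPolynomial σ k))) {q0, q1}) →
      Near s M := by
  have hbase : ∀ M : Submodule (MvPolynomial σ (PowerSeries k))
      (Fin 2 → MvPolynomial σ (PowerSeries k)), GoodL M →
      (∀ e, (PowerSeries.X : PowerSeries (FractionRing (MvPolynomial σ k))) ^ (2 * s) • e ∈
        VF M) → Near s M := by
    intro M hM hall
    refine ⟨1, by simp, fun u _ => ⟨u, (act_one u).symm⟩, fun w => ?_⟩
    apply inSat_of_vF hM
    rw [act_one, vF_smul, emb_eq, emb_X_pow]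
    exact hall _
  induction K with
  | zero =>
    rintro M hM ⟨u, hu, v, hv, h⟩ q0 q1 - - - - -
    by_cases he : ∀ e, (PowerSeries.X : PowerSeries (FractionRing (MvPolynomial σ k))) ^ (2 * s) •
      e ∈ VF M
    · exact hbase M hM he
    exfalso
    push Not at he
    obtain ⟨e, he⟩ := he
    have h0 := wedge_coeff_zero _ he u hu v hv
    apply h
    rw [zero_add, pow_one, PowerSeries.X_dvd_iff, ← PowerSeries.coeff_zero_eq_constantCoeff_apply,
      h0]
  | succ K ih =>
    rintro M hM ⟨u, hu, v, hv, h⟩ q0 q1 hq0L hq1L hq0 hq1 hs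
    by_cases he : ∀ e, (PowerSeries.X : PowerSeries (FractionRing (MvPolynomial σ k))) ^ (2 * s) •
      e ∈ VF M
    · exact hbase M hM he
    push Not at he
    obtain ⟨e, he⟩ := he
    -- the general step
    have step : ∀ (P : Matrix (Fin 2) (Fin 2) (PowerSeries k)) (j : ℕ),
        P.det = PowerSeries.X ^ (j + 1) → (∀ u ∈ M, ∃ v, u = act P v) → Near s M := by
      intro P j hPX hle
      have hP : P.det ≠ 0 := by rw [hPX]; exact pow_ne_zero _ PowerSeries.X_ne_zero
      obtain ⟨q0', hq0L', hq0', rfl⟩ := transport_vector L P (j + 1) hPX hle q0 hq0L hq0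
      obtain ⟨q1', hq1L', hq1', rfl⟩ := transport_vector L P (j + 1) hPX hle q1 hq1L hq1
      refine near_of_pull hP hle (ih _ (hM.pull hP hle) ?_ q0' q1' hq0L' hq1L' hq0' hq1' ?_)
      · obtain ⟨u', rfl⟩ := hle u hu
        obtain ⟨v', rfl⟩ := hle v hv
        refine ⟨u', hu, v', hv, fun hdvd => h ?_⟩
        rw [wedge_act, map_mul, pow_succ, mul_comm]
        refine mul_dvd_mul ?_ hdvd
        rw [rho_C, hPX, map_pow, PowerSeries.map_X]
        exact dvd_pow_self _ (by omega)
      · intro u' hu'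
        have h1 := hs (act P u') hu'
        rw [vF_act, mem_span_pair'] at h1
        obtain ⟨x, y, h1⟩ := h1
        rw [mem_span_pair']
        refine ⟨x, y, actF_injective hP ?_⟩
        rw [map_smul, map_add, map_smul, map_smul]
        exact h1
    rcases dichotomyL m hσ hM hinj L hL hLt s e he q0 q1 hq0L hq1L hq0 hq1 hs with
      h1 | ⟨c, h1⟩ | h1
    · refine step !![PowerSeries.X, 0; 0, PowerSeries.X] 1 ?_ ?_
      · rw [Matrix.det_fin_two_of]; ring
      · intro w hw
        choose w' hw' using fun j => C_X_dvd_of_coeff (h1 w hw j)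
        refine ⟨w', ?_⟩
        ext1 i
        rw [act_apply, hw' i]
        fin_cases i <;> simp
    · refine step !![1, 0; PowerSeries.C c, PowerSeries.X] 0 ?_ ?_
      · rw [Matrix.det_fin_two_of]; ring
      · intro w hw
        have h2 : PowerSeries.coeff 0 (rho σ k (w 1 - C (PowerSeries.C c) * w 0)) = 0 := by
          rw [map_sub, map_sub, coeff_zero_rho_mul, h1 w hw, rho_C]
          simp
        obtain ⟨w', hw'⟩ := C_X_dvd_of_coeff h2
        refine ⟨![w 0, w'], ?_⟩
        ext1 i
        rw [act_apply]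
        fin_cases i
        · simp
        · simp only [Fin.mk_one, Matrix.of_apply, Matrix.cons_val', Matrix.cons_val_zero,
            Matrix.cons_val_one, Matrix.cons_val_fin_one]
          rw [← hw']; ring
    · refine step !![PowerSeries.X, 0; 0, 1] 0 ?_ ?_
      · rw [Matrix.det_fin_two_of]; ring
      · intro w hw
        obtain ⟨w', hw'⟩ := C_X_dvd_of_coeff (h1 w hw)
        refine ⟨![w', w 1], ?_⟩
        ext1 i
        rw [act_apply]
        fin_cases i
        · simp [hw']
        · simp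

/-- The main theorem for graded lattices close to a lattice over a small field. -/
theorem near_of_small [IsAlgClosed k] [CharZero k] [Finite σ] (m : ℕ) (hσ : m + 2 ≤ Nat.card σ)
    (hinj : Function.Injective (algebraMap (MvPolynomial σ k) (FractionRing (MvPolynomial σ k))))
    (L : IntermediateField k (FractionRing (MvPolynomial σ k)))
    (hL : L.toSubfield ≤ homFrac σ k _ hinj) (hLt : Algebra.trdeg k L ≤ m) (s : ℕ)
    {M : Submodule (MvPolynomial σ (PowerSeries k)) (Fin 2 → MvPolynomial σ (PowerSeries k))}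
    (hM : GoodL M)
    (q0 q1 : Fin 2 → PowerSeries (FractionRing (MvPolynomial σ k)))
    (hq0L : ∀ j i, PowerSeries.coeff i (q0 j) ∈ L) (hq1L : ∀ j i, PowerSeries.coeff i (q1 j) ∈ L)
    (hq0 : q0 ∈ VF M) (hq1 : q1 ∈ VF M)
    (hs : ∀ u ∈ M, (PowerSeries.X : PowerSeries (FractionRing (MvPolynomial σ k))) ^ s • vF u ∈
        Submodule.span (PowerSeries (FractionRing (MvPolynomial σ k))) {q0, q1}) :
    Near s M := by
  obtain ⟨N, hN⟩ := hM.gen
  refine near_induction m hσ hinj L hL hLt s (2 * N) M hM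
    ⟨_, hN (Pi.single 0 1), _, hN (Pi.single 1 1), ?_⟩ q0 q1 hq0L hq1L hq0 hq1 hs
  intro hdvd
  have h1 : wedge ((C ((PowerSeries.X : PowerSeries k) ^ N) : MvPolynomial σ (PowerSeries k)) •
      (Pi.single 0 1 : Fin 2 → MvPolynomial σ (PowerSeries k)))
      ((C ((PowerSeries.X : PowerSeries k) ^ N) : MvPolynomial σ (PowerSeries k)) •
      (Pi.single 1 1 : Fin 2 → MvPolynomial σ (PowerSeries k))) =
      C ((PowerSeries.X : PowerSeries k) ^ (2 * N)) := by
    simp [wedge, two_mul, pow_add]
  rw [h1, rho_C_X_pow] at hdvd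
  obtain ⟨c, hc⟩ := hdvd
  have h2 : (PowerSeries.X : PowerSeries (MvPolynomial σ k)) ^ (2 * N) ≠ 0 :=
    pow_ne_zero _ PowerSeries.X_ne_zero
  have h3 : (1 : PowerSeries (MvPolynomial σ k)) = PowerSeries.X * c := by
    apply mul_left_cancel₀ h2
    rw [mul_one]
    conv_lhs => rw [hc]
    rw [pow_succ]; ring
  have h4 := congrArg PowerSeries.constantCoeff h3
  simp at h4

end

end Pool.Agent.Lib.MPbca609.H23
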